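import Pool.Agent.TH518.CW.TwoA
import Pool.Agent.TH885.NW.Prop

set_option autoImplicit false

/-!
# Effective classes on the blow-up of the plane at generic points in every characteristic

Let `k` be a field of any characteristic, `s ≥ 10`, and let `d H - ∑ w i E i` be a class on the
blow-up of the plane at `s` generic points. Let `b` be a number with `w i ≤ b + 1` for all `i`. If
`s + ∑ max (w i) b < √s (d + 3)`, or if `s` is a square and equality holds, then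
`h⁰ + ∑ (w i + 1) w i / 2 = (d + 2) (d + 1) / 2`, that is, `h¹ = 0`.

For `s = 11` and `s = 13` this holds as soon as `s + 2 ∑ max (w i) b ≤ √s (2 d + 3)`, and if three does
not divide `d`, or if the weights absorb the apex, then the class is effective only if
`s + 2 ∑ w i ≤ √s (2 d + 3)`.
-/

namespace Pool.Agent.Results.MP_0dccba_ag.AllCharacteristics

open MvPolynomial

universe u

/-- The homogeneous ideal of the fat points with support `(1 : P i 0 : P i 1)` and multiplicity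
`w i`: the intersection of the `w i`-th powers of the ideals of the points. -/
noncomputable def fat {k : Type u} [Field k] {s : ℕ} (P : Fin s → Fin 2 → k) (w : Fin s → ℕ) :
    Ideal (MvPolynomial (Fin 3) k) :=
  ⨅ i : Fin s, (Ideal.span {X 1 - C (P i 0) * X 0, X 2 - C (P i 1) * X 0} :
    Ideal (MvPolynomial (Fin 3) k)) ^ (w i)

/-- The points `(1 : P i 0 : P i 1)` are generic: their affine coordinates are algebraically
independent over the prime field `⊥` of `k`. -/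
def Generic {k : Type u} [Field k] {s : ℕ} (P : Fin s → Fin 2 → k) : Prop :=
  AlgebraicIndependent (⊥ : Subfield k) (fun ij : Fin s × Fin 2 => P ij.1 ij.2)

/-- The class `d H - ∑ w i E i` is effective. -/
def Effective {k : Type u} [Field k] {s : ℕ} (P : Fin s → Fin 2 → k) (w : Fin s → ℕ) (d : ℕ) :
    Prop :=
  ∃ G : MvPolynomial (Fin 3) k, G ≠ 0 ∧ G.IsHomogeneous d ∧ G ∈ fat P w

/-- `h⁰ - χ = 0` for the class `d H - ∑ w i E i`, that is, its `h¹` vanishes (its `h²` does). -/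
def H1Zero {k : Type u} [Field k] {s : ℕ} (P : Fin s → Fin 2 → k) (w : Fin s → ℕ) (d : ℕ) : Prop :=
  Module.finrank k
    ↥(homogeneousSubmodule (Fin 3) k d ⊓ Submodule.restrictScalars k (fat P w))
    + ∑ i, Nat.choose (w i + 1) 2 = Nat.choose (d + 2) 2

/-- The weights above the height `g = ⌊d / √s⌋` absorb the apex. -/
def Absorbed {s : ℕ} (w : Fin s → ℕ) (d : ℕ) : Prop :=
  (3 + Real.sqrt s) / 2 * (d - Real.sqrt s * (⌊(d : ℝ) / Real.sqrt s⌋₊ : ℕ)) <
    ∑ i, ((w i - ⌊(d : ℝ) / Real.sqrt s⌋₊ : ℕ) : ℝ)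

theorem of_surj {k : Type u} [Field k] {s : ℕ} {P : Fin s → Fin 2 → k} {w : Fin s → ℕ} {d : ℕ}
    (h : Pool.Agent.H932R5.SurjAt (E := 1) w P d) : H1Zero P w d := by
  have h1 := h.finrank
  have h2 : (Pool.Agent.H932R5.Vd (E := 1) d w P) =
      homogeneousSubmodule (Fin 3) k d ⊓ Submodule.restrictScalars k (fat P w) := by
    unfold Pool.Agent.H932R5.Vd fat
    congr 2
    refine iInf_congr fun i => ?_
    rw [Pool.Agent.H519R3.AC.hI_plane]
  unfold H1Zero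
  rw [← h2, add_comm]
  exact h1

theorem mem_fat {k : Type u} [Field k] {s : ℕ} {P : Fin s → Fin 2 → k} {w : Fin s → ℕ}
    {G : MvPolynomial (Fin 3) k} (h : G ∈ fat P w) (i : Fin s) :
    G ∈ (Ideal.span {X 1 - C (P i 0) * X 0, X 2 - C (P i 1) * X 0} :
      Ideal (MvPolynomial (Fin 3) k)) ^ (w i) := by
  unfold fat at h
  rw [Ideal.mem_iInf] at h
  exact h i

theorem all_numbers (k : Type u) [Field k] (s : ℕ) (hs : 10 ≤ s) (P : Fin s → Fin 2 → k)
    (hP : Generic P) :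
    (∀ (w : Fin s → ℕ) (d b : ℕ), (∀ i, w i ≤ b + 1) →
      ((s : ℝ) + ∑ i, ((max (w i) b : ℕ) : ℝ) < Real.sqrt s * (d + 3) ∨
        IsSquare s ∧ (s : ℝ) + ∑ i, ((max (w i) b : ℕ) : ℝ) ≤ Real.sqrt s * (d + 3)) →
      H1Zero P w d) ∧
    (∀ (w : Fin s → ℕ) (d : ℕ), Effective P w d → ∑ i, (w i : ℝ) ≤ Real.sqrt s * d) ∧
    (s ≤ 15 → ∀ (w : Fin s → ℕ) (b : ℕ), (∀ i, b ≤ w i ∧ w i ≤ b + 1) →
      ∃ d₀ : ℕ, ∀ d : ℕ, d ≠ d₀ → Effective P w d → H1Zero P w d) ∧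
    (s = 16 → ∀ (w : Fin s → ℕ) (b : ℕ), (∀ i, b ≤ w i ∧ w i ≤ b + 1) → 4 ∣ ∑ i, w i →
      ∀ d : ℕ, Effective P w d → H1Zero P w d) := by
  classical
  obtain ⟨p, hp⟩ := CharP.exists k
  have hp' : p = 0 ∨ p.Prime := (CharP.char_is_prime_or_zero k p).symm
  have hsR : (10 : ℝ) ≤ s := by exact_mod_cast hs
  have hs0 : 0 < Real.sqrt s := Real.sqrt_pos.2 (by linarith)
  have hss : Real.sqrt s * Real.sqrt s = s := Real.mul_self_sqrt (by linarith)
  have h1 : ∀ (w : Fin s → ℕ) (d b : ℕ), (∀ i, w i ≤ b + 1) →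
      ((s : ℝ) + ∑ i, ((max (w i) b : ℕ) : ℝ) < Real.sqrt s * (d + 3) ∨
        IsSquare s ∧ (s : ℝ) + ∑ i, ((max (w i) b : ℕ) : ℝ) ≤ Real.sqrt s * (d + 3)) →
      H1Zero P w d := by
    intro w d b hw hd
    refine of_surj (Pool.Agent.TH518.CW.mono_max (b := b)
      (Pool.Agent.TH518.CW.surj_generic (b := b) hp' hs (fun i => ⟨le_max_right _ _,
        max_le (hw i) (Nat.le_succ b)⟩) ?_ hP))
    rcases hd with hd | ⟨⟨l, hl⟩, hd⟩
    · exact Or.inl hd
    · right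
      refine ⟨l, by rw [hl]; ring, ?_⟩
      have h2 : Real.sqrt s = l := by
        rw [hl]
        push_cast
        exact Real.sqrt_mul_self (Nat.cast_nonneg l)
      rw [h2] at hd
      exact_mod_cast hd
  have h2 : ∀ (w : Fin s → ℕ) (d : ℕ), Effective P w d → ∑ i, (w i : ℝ) ≤ Real.sqrt s * d := by
    rintro w d ⟨G, hG, hGd, hGm⟩
    exact Pool.Agent.TH545.CF.sum_le (by omega) hP w d G hGd hG (mem_fat hGm)
  refine ⟨h1, h2, fun hs15 w b hw => ?_, fun hs16 w b hw h4 d heff => ?_⟩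
  · have hs4 : Real.sqrt s < 4 := by
      rw [Real.sqrt_lt' (by norm_num)]
      have : (s : ℝ) ≤ 15 := by exact_mod_cast hs15
      linarith
    refine ⟨⌈(∑ i, (w i : ℝ)) / Real.sqrt s⌉₊, fun d hd heff => ?_⟩
    have h3 := h2 w d heff
    have h5 : ⌈(∑ i, (w i : ℝ)) / Real.sqrt s⌉₊ ≤ d := by
      apply Nat.ceil_le.2
      rw [div_le_iff₀ hs0]
      linarith
    have h6 : ⌈(∑ i, (w i : ℝ)) / Real.sqrt s⌉₊ + 1 ≤ d := by omega
    refine h1 w d b (fun i => (hw i).2) (Or.inl ?_)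
    have h7 : ∀ i, max (w i) b = w i := fun i => max_eq_left (hw i).1
    simp only [h7]
    have h8 : (∑ i, (w i : ℝ)) / Real.sqrt s + 1 ≤ d := by
      have h9 : ((⌈(∑ i, (w i : ℝ)) / Real.sqrt s⌉₊ : ℕ) : ℝ) + 1 ≤ d := by exact_mod_cast h6
      have h10 := Nat.le_ceil ((∑ i, (w i : ℝ)) / Real.sqrt s)
      linarith
    have h9 : ∑ i, (w i : ℝ) ≤ (d - 1) * Real.sqrt s := by
      rw [← div_le_iff₀ hs0]
      linarith
    nlinarith
  · subst hs16
    rcases Nat.eq_zero_or_pos d with hd | hd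
    · have h3 := h2 w d heff
      rw [hd, Nat.cast_zero, mul_zero] at h3
      have h5 : ∀ i, w i = 0 := by
        intro i
        have h6 : ∑ i, w i ≤ 0 := by exact_mod_cast h3
        have h7 : w i ≤ ∑ i, w i := Finset.single_le_sum (fun _ _ => Nat.zero_le _) (Finset.mem_univ i)
        omega
      exact of_surj (Pool.Agent.H932R5.SurjAt.of_zero h5 P d)
    · obtain ⟨G, hG, hGd, hGm⟩ := heff
      have h3 : ∑ i : Fin 16, w i < 4 * d :=
        Pool.Agent.TH518.CW.lt_of_form (l := 4) le_rfl hP hd hGd hG (mem_fat hGm)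
      obtain ⟨q, hq⟩ := h4
      have h5 : 16 + ∑ i, w i ≤ 4 * (d + 3) := by omega
      have h6 : Real.sqrt ((16 : ℕ) : ℝ) = 4 := by
        have : ((16 : ℕ) : ℝ) = 4 ^ 2 := by norm_num
        rw [this]
        exact Real.sqrt_sq (by norm_num)
      refine h1 w d b (fun i => (hw i).2) (Or.inr ⟨⟨4, rfl⟩, ?_⟩)
      rw [h6]
      have h7 : ∀ i, max (w i) b = w i := fun i => max_eq_left (hw i).1
      simp only [h7]
      exact_mod_cast h5

theorem eleven_thirteen (k : Type u) [Field k] (s : ℕ) (hs : s = 11 ∨ s = 13) (P : Fin s → Fin 2 → k)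
    (hP : Generic P) :
    (∀ (w : Fin s → ℕ) (d b : ℕ), (∀ i, w i ≤ b + 1) →
      (s : ℝ) + 2 * ∑ i, ((max (w i) b : ℕ) : ℝ) ≤ Real.sqrt s * (2 * d + 3) → H1Zero P w d) ∧
    (∀ (w : Fin s → ℕ) (d : ℕ), ¬ 3 ∣ d ∨ Absorbed w d → Effective P w d →
      (s : ℝ) + 2 * ∑ i, (w i : ℝ) ≤ Real.sqrt s * (2 * d + 3)) ∧
    (∀ (w : Fin s → ℕ) (b : ℕ), (∀ i, b ≤ w i ∧ w i ≤ b + 1) →
      (∀ d : ℕ, ¬ 3 ∣ d ∨ Absorbed w d → Effective P w d → H1Zero P w d) ∧
      ∃ d₀ : ℕ, 3 ∣ d₀ ∧ ∀ d : ℕ, d ≠ d₀ → Effective P w d → H1Zero P w d) ∧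
    (∀ ε : ℝ, 0 < ε → ∃ M₀ : ℕ, ∀ M : ℕ, M₀ ≤ M →
      (Set.ncard {b : ℕ | b < M ∧ ∃ d : ℕ, Effective P (fun _ => b) d ∧
        ¬ H1Zero P (fun _ => b) d} : ℝ) ≤ ((Real.sqrt s - 3) / 6 + ε) * M) := by
  classical
  obtain ⟨p, hp⟩ := CharP.exists k
  have hp' : p = 0 ∨ p.Prime := (CharP.char_is_prime_or_zero k p).symm
  have hs11 : 11 ≤ s := by omega
  have hs13 : s ≤ 13 := by omega
  have hsR : (10 : ℝ) ≤ s := by
    have : (11 : ℝ) ≤ s := by exact_mod_cast hs11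
    linarith
  have hs3 : 3 < Real.sqrt s := by
    rw [Real.lt_sqrt (by norm_num)]
    linarith
  have hs0 : 0 < Real.sqrt s := by linarith
  have hs4 : Real.sqrt s ≤ 4 := by
    rw [Real.sqrt_le_left (by norm_num)]
    have : (s : ℝ) ≤ 13 := by exact_mod_cast hs13
    linarith
  have hss : Real.sqrt s * Real.sqrt s = s := Real.mul_self_sqrt (by linarith)
  obtain ⟨q, v, K, h⟩ := Pool.Agent.TH518.CW.exists_num hs
  have h1 : ∀ (w : Fin s → ℕ) (d b : ℕ), (∀ i, w i ≤ b + 1) →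
      (s : ℝ) + 2 * ∑ i, ((max (w i) b : ℕ) : ℝ) ≤ Real.sqrt s * (2 * d + 3) →
      H1Zero P w d := by
    intro w d b hw hd
    exact of_surj (Pool.Agent.TH518.CW.mono_max (b := b)
      (Pool.Agent.TH518.CW.surj_two h (b := b) hp' (by omega) (fun i => ⟨le_max_right _ _,
        max_le (hw i) (Nat.le_succ b)⟩) (by linarith) hP))
  have h2 : ∀ (w : Fin s → ℕ) (d : ℕ), ¬ 3 ∣ d ∨ Absorbed w d → Effective P w d →
      (s : ℝ) + 2 * ∑ i, (w i : ℝ) ≤ Real.sqrt s * (2 * d + 3) := by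
    rintro w d hd ⟨G, hG, hGd, hGm⟩
    have := Pool.Agent.TH518.CW.emp_two_points' h hP hd hGd hG (mem_fat hGm)
    linarith
  have h3 : ∀ (w : Fin s → ℕ) (d : ℕ), Effective P w d → ∑ i, (w i : ℝ) ≤ Real.sqrt s * d := by
    rintro w d ⟨G, hG, hGd, hGm⟩
    exact Pool.Agent.TH545.CF.sum_le (by omega) hP w d G hGd hG (mem_fat hGm)
  have h4 : ∀ (w : Fin s → ℕ) (b : ℕ), (∀ i, b ≤ w i ∧ w i ≤ b + 1) → ∀ d : ℕ,
      ¬ 3 ∣ d ∨ Absorbed w d → Effective P w d → H1Zero P w d := by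
    intro w b hw d hd heff
    refine h1 w d b (fun i => (hw i).2) ?_
    have h7 : ∀ i, max (w i) b = w i := fun i => max_eq_left (hw i).1
    simp only [h7]
    exact h2 w d hd heff
  refine ⟨h1, h2, fun w b hw => ⟨h4 w b hw, ?_⟩, fun ε hε => ?_⟩
  · refine ⟨3 * ⌈(∑ i, (w i : ℝ)) / (3 * Real.sqrt s)⌉₊, ⟨_, rfl⟩, fun d hd heff => ?_⟩
    by_cases hd3 : 3 ∣ d
    · obtain ⟨e, rfl⟩ := hd3
      have h5 := h3 w _ heff
      push_cast at h5
      have h6 : ⌈(∑ i, (w i : ℝ)) / (3 * Real.sqrt s)⌉₊ ≤ e := by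
        apply Nat.ceil_le.2
        rw [div_le_iff₀ (by positivity)]
        linarith
      have h7 : ⌈(∑ i, (w i : ℝ)) / (3 * Real.sqrt s)⌉₊ + 1 ≤ e := by omega
      have h8 : ((⌈(∑ i, (w i : ℝ)) / (3 * Real.sqrt s)⌉₊ : ℕ) : ℝ) + 1 ≤ e := by exact_mod_cast h7
      have h9 := Nat.le_ceil ((∑ i, (w i : ℝ)) / (3 * Real.sqrt s))
      have h10 : (∑ i, (w i : ℝ)) ≤ (e - 1) * (3 * Real.sqrt s) := by
        rw [← div_le_iff₀ (by positivity)]
        linarith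
      refine h1 w _ b (fun i => (hw i).2) ?_
      have h11 : ∀ i, max (w i) b = w i := fun i => max_eq_left (hw i).1
      simp only [h11]
      push_cast
      nlinarith
    · exact h4 w b hw d (Or.inl hd3) heff
  · have hirr : Irrational (Real.sqrt s) := by
      rw [irrational_sqrt_natCast_iff]
      rintro ⟨q, hq⟩
      have hq1 : q ≤ 3 := by
        by_contra hcon
        have : 4 * 4 ≤ q * q := Nat.mul_le_mul (by omega) (by omega)
        omega
      have : q * q ≤ 3 * 3 := Nat.mul_le_mul hq1 hq1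
      omega
    have hirr3 : Irrational (Real.sqrt s / 3) := by
      have := hirr.div_natCast (m := 3) (by norm_num)
      push_cast at this
      exact this
    have h5 : ∀ b : ℕ, (∃ d : ℕ, Effective P (fun _ => b) d ∧ ¬ H1Zero P (fun _ => b) d) →
        ∃ D : ℤ, Real.sqrt s * b < 3 * D ∧ 3 * (D : ℝ) < Real.sqrt s * b + (Real.sqrt s - 3) / 2 := by
      rintro b ⟨d, heff, hbad⟩
      have hb0 : b ≠ 0 := by
        rintro rfl
        exact hbad (of_surj (Pool.Agent.H932R5.SurjAt.of_zero (fun _ => rfl) P d))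
      have hbR : (1 : ℝ) ≤ b := by exact_mod_cast Nat.one_le_iff_ne_zero.2 hb0
      have hd3 : 3 ∣ d := by
        by_contra hd3
        exact hbad (h4 (fun _ => b) b (fun _ => ⟨le_rfl, Nat.le_succ b⟩) d (Or.inl hd3) heff)
      obtain ⟨e, rfl⟩ := hd3
      have h6 := h3 _ _ heff
      have h7 : Real.sqrt s * (2 * ((3 * e : ℕ) : ℝ) + 3) < s + 2 * (s * b) := by
        by_contra hcon
        rw [not_lt] at hcon
        refine hbad (h1 _ _ b (fun _ => Nat.le_succ b) ?_)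
        simpa using hcon
      simp only [Finset.sum_const, Finset.card_univ, Fintype.card_fin, nsmul_eq_mul] at h6
      refine ⟨e, ?_, ?_⟩
      · have h8 : Real.sqrt s * b ≤ 3 * (e : ℝ) := by
          have h9 : Real.sqrt s * (Real.sqrt s * b) ≤ Real.sqrt s * (3 * (e : ℝ)) := by
            rw [← mul_assoc, hss]
            push_cast at h6
            exact h6
          exact le_of_mul_le_mul_left h9 hs0
        have h9 : Real.sqrt s * b ≠ 3 * (e : ℝ) := by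
          intro h10
          have h11 := hirr.mul_natCast hb0
          rw [h10] at h11
          have h12 : (3 : ℝ) * e = ((3 * e : ℕ) : ℝ) := by push_cast; ring
          rw [h12] at h11
          exact Nat.not_irrational _ h11
        push_cast
        exact lt_of_le_of_ne h8 h9
      · push_cast at h7 ⊢
        have h8 : Real.sqrt s * (2 * (3 * (e : ℝ)) + 3) <
            Real.sqrt s * (2 * (Real.sqrt s * b + (Real.sqrt s - 3) / 2) + 3) := by
          have e1 : Real.sqrt s * (2 * (Real.sqrt s * b + (Real.sqrt s - 3) / 2) + 3) =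
              (Real.sqrt s * Real.sqrt s) * (2 * b + 1) := by ring
          rw [e1, hss]
          linarith
        have h9 := lt_of_mul_lt_mul_left h8 hs0.le
        linarith
    obtain ⟨M0, hM0⟩ := Pool.Agent.TH885.NW.count_sharp hirr3 0 0 ((Real.sqrt s - 3) / 6)
      (by linarith) hε
    refine ⟨⌈M0⌉₊, fun M hM => ?_⟩
    have hfin : {b : ℕ | b < M ∧ ∃ d : ℕ, Effective P (fun _ => b) d ∧
        ¬ H1Zero P (fun _ => b) d}.Finite := (Set.finite_lt_nat M).subset fun m hm => hm.1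
    have h6 := hM0 M ((Nat.le_ceil M0).trans (by exact_mod_cast hM)) hfin.toFinset
      (fun m hm => ((Set.Finite.mem_toFinset hfin).1 hm).1) (fun m hm => by
        obtain ⟨D, hD1, hD2⟩ := h5 m ((Set.Finite.mem_toFinset hfin).1 hm).2
        exact ⟨D, by linarith, by linarith⟩)
    rw [Set.ncard_eq_toFinset_card _ hfin]
    rw [zero_add] at h6
    exact h6

theorem result (k : Type u) [Field k] (s : ℕ) (hs : 10 ≤ s) (P : Fin s → Fin 2 → k)
    (hP : Generic P) :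
    (∀ (w : Fin s → ℕ) (d b : ℕ), (∀ i, w i ≤ b + 1) →
      ((s : ℝ) + ∑ i, ((max (w i) b : ℕ) : ℝ) < Real.sqrt s * (d + 3) ∨
        IsSquare s ∧ (s : ℝ) + ∑ i, ((max (w i) b : ℕ) : ℝ) ≤ Real.sqrt s * (d + 3)) →
      H1Zero P w d) ∧
    (∀ (w : Fin s → ℕ) (d : ℕ), Effective P w d → ∑ i, (w i : ℝ) ≤ Real.sqrt s * d) ∧
    (s ≤ 15 → ∀ (w : Fin s → ℕ) (b : ℕ), (∀ i, b ≤ w i ∧ w i ≤ b + 1) →
      ∃ d₀ : ℕ, ∀ d : ℕ, d ≠ d₀ → Effective P w d → H1Zero P w d) ∧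
    (s = 16 → ∀ (w : Fin s → ℕ) (b : ℕ), (∀ i, b ≤ w i ∧ w i ≤ b + 1) → 4 ∣ ∑ i, w i →
      ∀ d : ℕ, Effective P w d → H1Zero P w d) ∧
    (s = 11 ∨ s = 13 →
    (∀ (w : Fin s → ℕ) (d b : ℕ), (∀ i, w i ≤ b + 1) →
      (s : ℝ) + 2 * ∑ i, ((max (w i) b : ℕ) : ℝ) ≤ Real.sqrt s * (2 * d + 3) → H1Zero P w d) ∧
    (∀ (w : Fin s → ℕ) (d : ℕ), ¬ 3 ∣ d ∨ Absorbed w d → Effective P w d →
      (s : ℝ) + 2 * ∑ i, (w i : ℝ) ≤ Real.sqrt s * (2 * d + 3)) ∧
    (∀ (w : Fin s → ℕ) (b : ℕ), (∀ i, b ≤ w i ∧ w i ≤ b + 1) →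
      (∀ d : ℕ, ¬ 3 ∣ d ∨ Absorbed w d → Effective P w d → H1Zero P w d) ∧
      ∃ d₀ : ℕ, 3 ∣ d₀ ∧ ∀ d : ℕ, d ≠ d₀ → Effective P w d → H1Zero P w d) ∧
    (∀ ε : ℝ, 0 < ε → ∃ M₀ : ℕ, ∀ M : ℕ, M₀ ≤ M →
      (Set.ncard {b : ℕ | b < M ∧ ∃ d : ℕ, Effective P (fun _ => b) d ∧
        ¬ H1Zero P (fun _ => b) d} : ℝ) ≤ ((Real.sqrt s - 3) / 6 + ε) * M)) := by
  obtain ⟨h1, h2, h3, h4⟩ := all_numbers k s hs P hP
  exact ⟨h1, h2, h3, h4, fun h => eleven_thirteen k s h P hP⟩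

end Pool.Agent.Results.MP_0dccba_ag.AllCharacteristics
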