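import Pool.Agent.TH167.CL.NegH
import Pool.Agent.TH167.SH.Conv

set_option autoImplicit false

/-!
# Small multiplicities of negative prime divisors of arithmetic genus at least ten

Let `C` be a prime divisor on the blow-up of the plane at `s ≥ 4` generic points over an
algebraically closed field of characteristic zero, of class `e H - ∑ w i E i`, with `C ^ 2 < 0` and
arithmetic genus at least ten (that is, `C ^ 2 + C K ≥ 18`). Then
`#{i : w i = 1} + ∑ (6 - w i)⁺ ≤ max 0 (4 + C ^ 2) ≤ 3`, the sum over the indices with `w i ≥ 2`.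
-/

namespace Pool.Agent.Results.MP_0dccba_ag.GenusAtLeastTen

open MvPolynomial Pool.Agent.TH167 Pool.Agent.TH167.SHDefs

theorem result (K : Type) [Field K] [CharZero K] [IsAlgClosed K] (r : ℕ)
    (P : Fin (r + 4) → Fin 2 → K)
    (hP : AlgebraicIndependent ℚ (fun ij : Fin (r + 4) × Fin 2 => P ij.1 ij.2))
    (e : ℕ) (w : Fin (r + 4) → ℕ) (G : MvPolynomial (Fin 3) K) (hG : Curve P G e w)
    (hneg : inter e w e w < 0) (hg : 18 ≤ inter e w e w + interK e w) :
    ((Finset.univ.filter fun i => w i = 1).card : ℤ) +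
      ∑ i ∈ Finset.univ.filter (fun i => 2 ≤ w i), ((6 - w i : ℕ) : ℤ) ≤
        max 0 (4 + inter e w e w) := by
  obtain ⟨h1, h2, h3⟩ := SH.curve_iff.1 hG
  rw [SH.inter_eq] at hneg hg ⊢
  rw [SH.interK_eq] at hg
  exact CL.neg_ten hP h1 h2 h3 hneg (by linarith)

end Pool.Agent.Results.MP_0dccba_ag.GenusAtLeastTen
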