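import Pool.Agent.TH167.SH.Irr

set_option autoImplicit false

/-!
# Prime divisors with at most five multiplicities above a bound

Let `m ≥ 1` and `B = 2 ^ 17 (4 m ^ 2 + 8 m + 5) ^ 4`, let `P i`, `i < s`, be `s ≥ 4` generic points
of the plane over a field of characteristic zero, and let `C` be a prime divisor on the blow-up, of
class `e H - ∑ w i E i`, such that at most five of the `w i` are larger than `m` (or the sum of
those larger than `m` is at most `2 e - (4 m ^ 2 + 8 m + 5)`). Then `h¹(C) = 0`, or `h⁰(C) < B`, the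
arithmetic genus of `C` is less than `B`, and finitely many quadratic transformations carry `C` to a
prime divisor `C1` on the blow-up at other generic points, with the same `h⁰` and `h¹ > 0`, whose
class is reduced and belongs to a finite list which depends only on `m`.
-/

namespace Pool.Agent.Results.MP_0dccba_ag.PrimeFewLarge

open MvPolynomial Pool.Agent.TH167 Pool.Agent.TH167.SHDefs

/-- The dimension of `H¹` of the class `(e, w)`, computed from `H⁰`; it is nonnegative. -/
noncomputable def hOne {K : Type} [Field K] {s : ℕ} (P : Fin s → Fin 2 → K) (e : ℕ)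
    (w : Fin s → ℕ) : ℤ := dimL P e w - virtdim e w

theorem result (K : Type) [Field K] [CharZero K] (r m : ℕ) (hm : 0 < m)
    (P : Fin (r + 4) → Fin 2 → K)
    (hP : AlgebraicIndependent ℚ (fun ij : Fin (r + 4) × Fin 2 => P ij.1 ij.2))
    (e : ℕ) (w : Fin (r + 4) → ℕ) (hw : FewLarge m e w)
    (G : MvPolynomial (Fin 3) K) (hG : Curve P G e w) :
    hOne P e w = 0 ∨
      (dimL P e w + 1 < bd m ∧
        ((e : ℤ) - 1) * ((e : ℤ) - 2) - ∑ i, (w i : ℤ) * ((w i : ℤ) - 1) < 2 * (bd m : ℤ) ∧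
        ∃ (P1 : Fin (r + 4) → Fin 2 → K) (G1 : MvPolynomial (Fin 3) K) (e1 : ℕ)
          (w1 : Fin (r + 4) → ℕ),
          AlgebraicIndependent ℚ (fun ij : Fin (r + 4) × Fin 2 => P1 ij.1 ij.2) ∧
          Curve P1 G1 e1 w1 ∧ ReducesTo (bd m) e w e1 w1 ∧ dimL P1 e1 w1 = dimL P e w ∧
          0 < hOne P1 e1 w1) := by
  obtain ⟨h1, h2, h3⟩ := SH.curve_iff.1 hG
  unfold hOne
  rcases SH.irr_main hm rfl e P hP w hw G h1 h2 h3 with ⟨c1, c2⟩ | ⟨P1, e1, w1, G1, a1, a2, a3, a4,
    a5, a6, a7, a8, a9, a10, a11, a12⟩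
  · left
    rw [SH.dimL_eq, SH.virtdim_eq, c1]
    ring
  · right
    obtain ⟨q1, q2, q3⟩ := SH.quad_inv a5
    simp only at q1 q2 q3
    refine ⟨?_, ?_, P1, G1, e1, w1, a1, SH.curve_iff.2 ⟨a2, a3, a4⟩, ⟨SH.chain_conv a5, a6, a7, a8⟩,
      ?_, ?_⟩
    · rw [SH.dimL_eq]
      have : (Module.finrank K ↥(W609.CR.VS (fun j => W609.CR.aff (P j)) w e) : ℤ) < (bd m : ℤ) := by
        exact_mod_cast a10
      omega
    · rw [← SH.genus_eq]
      have : SH.chi e w - SH.kk e w < (bd m : ℤ) := a11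
      omega
    · rw [SH.dimL_eq, SH.dimL_eq, a9]
    · rw [SH.dimL_eq, SH.virtdim_eq, q1, a9]
      have h6 := SH.chi_le_dim P e w
      omega

end Pool.Agent.Results.MP_0dccba_ag.PrimeFewLarge
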