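import Mathlib
import Pool.Agent.TH885.CO.Good
import Pool.Agent.TH885.NW.Final
import Pool.Agent.TH885.NW.Exp2
import Pool.Agent.H932R3.NearFinal

set_option autoImplicit false

/-!
# Prime divisors with a nearly uniform Cremona reduction have vanishing `h¹`

Let `k` be a field of characteristic zero and `X` the blow-up of the plane at `s` generic points.

1. Let `C` be a prime divisor of class `(d, w)` on `X`. If quadratic transformations and the removal
   of lines through two of the points carry `(d, w)` to a class `(d1, w1)` with multiplicities `≤ 1`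
   outside a set `S` of the points, and on `S` all equal to `m` (`37` or more points, or `13`, or
   `21`), or in `{m, m + 1}` (`N0` or more points, or `4 N ≥ 144` points), or nearly uniform on at
   least ten points with `d1` outside a window of length less than `2`, then `h¹(C) = 0`.
2. Let `(d, w)` be any effective class, `s ≥ 10`, `W = ∑ w i` and `W b = ∑ max (w i) b` for some `b`
   with `w i ≤ b + 1` for all `i`. Then `h¹ = 0` if `s + W b < √s (d + 3)` or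
   `W b + s / 2 + √s / 3 + 1 / 8 < √s (d + 3 / 2)`; moreover
   `W + s / 2 ≤ √s (d + 11 / 6) + 9 / 8` if `W ≥ s (s / 2 - 11 √s / 6 + 2)`.
3. For every `ε > 0` and all `s ≥ N(ε)`: `h¹ = 0` if `(W b + s / 2) / √s + ε ≤ d + 3 / 2`, and
   `(W + s / 2) / √s < d + 3 / 2 + ε` if `W ≥ s (s / 2 + 2)`.
-/

namespace Pool.Agent.Results.MP_0dccba_ag.PrimeReducible

open MvPolynomial Pool.Agent.TH167.SHDefs
open Pool.Agent.TH885.CO (LineStep excess good_exp prime_core)

/-- `h¹` of the class `d H - ∑ w i E i`: the dimension of the linear system minus the virtual one. -/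
noncomputable def hOne {k : Type} [Field k] {s : ℕ} (P : Fin s → Fin 2 → k) (d : ℕ)
    (w : Fin s → ℕ) : ℤ := dimL P d w - virtdim d w

theorem hOne_of {k : Type} [Field k] {s : ℕ} {P : Fin s → Fin 2 → k} {d : ℕ} {w : Fin s → ℕ}
    (h : Module.finrank k ↥(sys P d w) + ∑ i, (w i + 1).choose 2 = (d + 2).choose 2) :
    hOne P d w = 0 := by
  unfold hOne dimL virtdim
  have h1 : ∑ i, ((w i + 1).choose 2 : ℤ) = ((∑ i, (w i + 1).choose 2 : ℕ) : ℤ) := by
    push_cast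
    rfl
  rw [h1]
  omega

theorem result :
    (∃ N0 : ℕ, ∀ (k : Type) [Field k] [CharZero k] (s d d1 m : ℕ) (w w1 : Fin s → ℕ)
      (S : Finset (Fin s)) (P : Fin s → Fin 2 → k),
      AlgebraicIndependent ℚ (fun ij : Fin s × Fin 2 => P ij.1 ij.2) → 1 ≤ m →
      (∀ i, i ∉ S → w1 i ≤ 1) →
      ((37 ≤ S.card ∨ S.card = 13 ∨ S.card = 21) ∧ (∀ i ∈ S, w1 i = m) ∨
        (N0 ≤ S.card ∨ 4 ∣ S.card ∧ 144 ≤ S.card) ∧ (∀ i ∈ S, w1 i = m ∨ w1 i = m + 1) ∨
        (10 ≤ S.card ∧ (∀ i ∈ S, w1 i = m) ∨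
            15 ≤ S.card ∧ (∀ i ∈ S, w1 i = m ∨ w1 i = m + 1)) ∧
          (min (√(S.card : ℝ) - 3) (2 / 3 + 1 / (4 * √(S.card : ℝ))) <
              excess S.card d1 (∑ i ∈ S, w1 i) ∨
            excess S.card d1 (∑ i ∈ S, w1 i) <
              - min (√(S.card : ℝ) - 3) (2 / 3 + 9 / (4 * √(S.card : ℝ))))) →
      Relation.ReflTransGen (fun a b => Quadratic a b ∨ LineStep a b) (d, w) (d1, w1) →
      ∀ C : MvPolynomial (Fin 3) k, Curve P C d w → hOne P d w = 0) ∧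
    (∀ (k : Type) [Field k] [CharZero k] (s : ℕ), 10 ≤ s →
      ∀ (w : Fin s → ℕ) (P : Fin s → Fin 2 → k),
      AlgebraicIndependent ℚ (fun ij : Fin s × Fin 2 => P ij.1 ij.2) →
      ∀ (d : ℕ) (G : MvPolynomial (Fin 3) k), G ≠ 0 → G ∈ sys P d w →
      ((s : ℝ) * (s / 2 - 11 / 6 * Real.sqrt s + 2) ≤ ∑ i, (w i : ℝ) →
        (∑ i, (w i : ℝ)) + s / 2 ≤ Real.sqrt s * (d + 11 / 6) + 9 / 8) ∧
      ((∃ b : ℕ, (∀ i, w i ≤ b + 1) ∧
          ((s : ℝ) + ∑ i, ((max (w i) b : ℕ) : ℝ) < Real.sqrt s * (d + 3) ∨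
            (∑ i, ((max (w i) b : ℕ) : ℝ)) + s / 2 + Real.sqrt s / 3 + 1 / 8 <
              Real.sqrt s * (d + 3 / 2))) →
        hOne P d w = 0)) ∧
    (∀ ε : ℝ, 0 < ε → ∃ N : ℕ, ∀ (k : Type) [Field k] [CharZero k] (s : ℕ), N ≤ s →
      ∀ (w : Fin s → ℕ) (P : Fin s → Fin 2 → k),
      AlgebraicIndependent ℚ (fun ij : Fin s × Fin 2 => P ij.1 ij.2) →
      ∀ (d : ℕ) (G : MvPolynomial (Fin 3) k), G ≠ 0 → G ∈ sys P d w →
      ((s : ℝ) * (s / 2 + 2) ≤ ∑ i, (w i : ℝ) →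
          ((∑ i, (w i : ℝ)) + s / 2) / Real.sqrt s < (d : ℝ) + 3 / 2 + ε) ∧
      ((∃ b : ℕ, (∀ i, w i ≤ b + 1) ∧
          ((∑ i, ((max (w i) b : ℕ) : ℝ)) + s / 2) / Real.sqrt s + ε ≤ (d : ℝ) + 3 / 2) →
        hOne P d w = 0)) := by
  refine ⟨?_, ?_, ?_⟩
  · obtain ⟨N0, hN0⟩ := good_exp
    refine ⟨N0, fun k _ _ s d d1 m w w1 S P hP hm hw hS h C hC => ?_⟩
    obtain ⟨n, hn, h1, h2⟩ := hN0 s d1 m w1 S hm hS
    have h3 := prime_core hm S hn hw h1 h2 h hP hC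
    unfold hOne
    omega
  · intro k _ _ s hs w P hP d G hG hGm
    unfold sys at hGm
    rw [Submodule.mem_inf, mem_homogeneousSubmodule, Submodule.restrictScalars_mem,
      Ideal.mem_iInf] at hGm
    obtain ⟨hGd, hGi⟩ := hGm
    refine ⟨fun hw => ?_, fun hd => ?_⟩
    · obtain ⟨j, hj1, hj2, hj3⟩ := TH885.NW.exists_k hs hw
      exact TH885.NW.exp_degree2 hs w hj1 hj2 hj3 P hP d G hG hGd hGi
    · obtain ⟨F, hF, hF'⟩ := TH885.NW.exp_cut2 hs w
      have h1 := hF' P (fun h0 => hF (hP.eq_zero_of_aeval_eq_zero F h0)) d (Or.inr (Or.inr hd))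
      exact hOne_of (h1.eff hG hGd hGi)
  · intro ε hε
    obtain ⟨N1, -, h'⟩ := TH885.NW.all_cut hε
    obtain ⟨N2, h2⟩ := TH885.NW.all_degree hε
    refine ⟨max N1 N2, fun k _ _ s hs w P hP d G hG hGm => ?_⟩
    unfold sys at hGm
    rw [Submodule.mem_inf, mem_homogeneousSubmodule, Submodule.restrictScalars_mem,
      Ideal.mem_iInf] at hGm
    obtain ⟨hGd, hGi⟩ := hGm
    refine ⟨fun hw => ?_, fun hd => ?_⟩
    · exact h2 s ((le_max_right _ _).trans hs) w hw P hP d G hG hGd hGi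
    · obtain ⟨F, hF, hF'⟩ := h' s ((le_max_left _ _).trans hs) w
      have h1 := hF' P (fun h0 => hF (hP.eq_zero_of_aeval_eq_zero F h0)) d (Or.inr (Or.inr hd))
      exact hOne_of (h1.eff hG hGd hGi)

end Pool.Agent.Results.MP_0dccba_ag.PrimeReducible
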